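import Pool.Agent.X172.GR.Stm

/-! Lemmas for part COM of project GR (MP_eff4ce_al). -/

namespace Pool.Agent.X69.GR

open Pool.Agent.X172.GR

theorem per_mul {n : ℕ} {T : ℕ → Fin 6} (hT : Ty n T) (i k : ℕ) : T (i + n * k) = T i := by
  induction k with
  | zero => simp
  | succ k ih =>
    have : i + n * (k + 1) = i + n * k + n := by ring
    rw [this, hT.per, ih]

theorem per_mod {n : ℕ} {T : ℕ → Fin 6} (hT : Ty n T) (i L j : ℕ) :
    T (i + L + j) = T (i + L % n + j) := by
  have : i + L + j = (i + L % n + j) + n * (L / n) := by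
    have := Nat.mod_add_div L n
    omega
  rw [this, per_mul hT]

theorem not_dvd {n p : ℕ} (h : 0 < p) (h' : p < n) : ¬ n ∣ p := fun hd =>
  absurd (Nat.le_of_dvd h hd) (not_le.2 h')

/-- (X) the mixed case -/
theorem mixed {n p L i : ℕ} {T : ℕ → Fin 6} (hT : Ty n T) (hp : 0 < p) (hpn : p < n)
    (hnL : n ≤ L) (h1 : ∀ j < n - p, T (i + j) = T (i + p + j))
    (h2 : ∀ j < p, T (i + j) = T (i + (L - p) + j))
    (h3 : ∀ j < n - p, T (i + (L - n) + j) = T (i + (L - n) + p + j)) : False := by
  have s1 : n - p < p := by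
    by_contra h
    obtain ⟨j, hj, hne⟩ := hT.sqf i p hp (not_dvd hp hpn)
    exact hne (h1 j (by omega))
  have h2' : ∀ j < p, T (i + j) = T (i + (L - p) % n + j) := fun j hj => by
    rw [h2 j hj, per_mod hT]
  have hδ : (L - p) % n < n := Nat.mod_lt _ (by omega)
  rcases Nat.eq_zero_or_pos ((L - p) % n) with h0 | h0
  · obtain ⟨q, hq⟩ := Nat.dvd_of_mod_eq_zero h0
    have hq1 : 1 ≤ q := by
      rcases Nat.eq_zero_or_pos q with rfl | h
      · omega
      · exact h
    obtain ⟨r, rfl⟩ : ∃ r, q = r + 1 := ⟨q - 1, by omega⟩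
    have hL : L - n = p + n * r := by
      have : n * (r + 1) = n * r + n := by ring
      omega
    obtain ⟨j, hj, hne⟩ := hT.sqf (i + 2 * p) (n - p) (by omega) (not_dvd (by omega) (by omega))
    apply hne
    have h4 := h3 j hj
    rw [hL] at h4
    have e1 : i + (p + n * r) + j = (i + p + j) + n * r := by ring
    have e2 : i + (p + n * r) + p + j = (i + 2 * p + j) + n * r := by ring
    rw [e1, e2, per_mul hT, per_mul hT] at h4
    have e3 : i + 2 * p + (n - p) + j = (i + p + j) + n := by omega
    rw [e3, hT.per, h4]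
  · rcases le_or_gt ((L - p) % n) p with h | h
    · obtain ⟨j, hj, hne⟩ := hT.sqf i _ h0 (not_dvd h0 hδ)
      exact hne (h2' j (by omega))
    · obtain ⟨j, hj, hne⟩ := hT.sqf (i + (L - p) % n) (n - (L - p) % n) (by omega)
        (not_dvd (by omega) (by omega))
      apply hne
      have e3 : i + (L - p) % n + (n - (L - p) % n) + j = (i + j) + n := by omega
      rw [e3, hT.per, h2' j (by omega)]

theorem rd_get {T : ℕ → Fin 6} (w : List Ltr) : ∀ i, Rd T i w →
    ∀ j (h : j < w.length), (w[j]).1 = T (i + j) := by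
  induction w with
  | nil => intro i _ j h; simp at h
  | cons a w ih =>
    intro i hr j h
    cases j with
    | zero => simpa using hr.1
    | succ j =>
      have := ih (i + 1) hr.2 j (by simpa using h)
      rw [List.getElem_cons_succ, this]
      congr 1
      ring

theorem no_square {n : ℕ} {T : ℕ → Fin 6} (hT : Ty n T) {r x : List Ltr} (hr : r ≠ [])
    (hn : r.length < n) (h : Readable T (r ++ r ++ x)) : False := by
  obtain ⟨i, hi⟩ := h
  have h0 : 0 < r.length := List.length_pos_iff.2 hr
  obtain ⟨j, hj, hne⟩ := hT.sqf i r.length h0 (not_dvd h0 hn)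
  rw [List.append_assoc] at hi
  have a1 := rd_get _ i hi j (by simp; omega)
  have a2 := rd_get _ i hi (r.length + j) (by simp; omega)
  apply hne
  have c1 : (r ++ (r ++ x))[j]'(by simp; omega) = r[j] := List.getElem_append_left hj
  have c2 : (r ++ (r ++ x))[r.length + j]'(by simp; omega) = r[j] := by
    rw [List.getElem_append_right (by omega)]
    simp only [Nat.add_sub_cancel_left]
    exact List.getElem_append_left hj
  rw [c1] at a1
  rw [c2] at a2
  rw [← a1, a2]
  congr 1
  ring

/-- (Y) -/
theorem comm_words_aux {n : ℕ} {T : ℕ → Fin 6} (hT : Ty n T) {s t : List Ltr} (hs : s ≠ [])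
    (rt : Readable T t) (ltn : t.length < n) (hst : s.length ≤ t.length)
    (h : s ++ t = t ++ s) : s = t := by
  have hpre : s <+: t := by
    have h1 : s <+: t ++ s := ⟨t, h⟩
    exact List.prefix_of_prefix_length_le h1 (List.prefix_append _ _) hst
  obtain ⟨t', rfl⟩ := hpre
  have h2 : s ++ t' = t' ++ s := by
    rw [List.append_assoc] at h
    exact List.append_cancel_left h
  by_cases ht' : t' = []
  · rw [ht']; simp
  exfalso
  rcases le_total s.length t'.length with hle | hle
  · have hpre : s <+: t' := by
      have h1 : s <+: t' ++ s := ⟨t', h2⟩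
      exact List.prefix_of_prefix_length_le h1 (List.prefix_append _ _) hle
    obtain ⟨t'', rfl⟩ := hpre
    refine no_square hT (r := s) (x := t'') hs ?_ (by rw [List.append_assoc]; exact rt)
    simp only [List.length_append] at ltn
    omega
  · have hpre : t' <+: s := by
      have h1 : t' <+: s ++ t' := ⟨s, h2.symm⟩
      exact List.prefix_of_prefix_length_le h1 (List.prefix_append _ _) hle
    obtain ⟨s', rfl⟩ := hpre
    refine no_square hT (r := t') (x := s') ht' ?_ (by
      rw [h2] at rt; rw [List.append_assoc]; exact rt)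
    simp only [List.length_append] at ltn
    omega

theorem comm_words {n : ℕ} {T : ℕ → Fin 6} (hT : Ty n T) {s t : List Ltr} (hs : s ≠ [])
    (ht : t ≠ []) (rs : Readable T s) (rt : Readable T t) (lsn : s.length < n)
    (ltn : t.length < n) (h : s ++ t = t ++ s) : s = t := by
  rcases le_total s.length t.length with h1 | h1
  · exact comm_words_aux hT hs rt ltn h1 h
  · exact (comm_words_aux hT ht rs lsn h1 h.symm).symm

end Pool.Agent.X69.GR
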